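import Pool.Agent.H24R2.PC.All

/-!
# Pair correlation of the zeros of the derivatives of the Riemann xi function

For every test function `f` the pair sum over the zeros of `ξ^(n)` with `T < Im ρ ≤ 2T` is, for large `n`
and `T`, uniformly for `n ≤ (log T) / 400`, up to `δ T log T` what it would be if the normalised zeros
formed a copy of the integers.  No hypothesis is assumed.

Proof.  By the theorem on the exceptional zeros of `ξ^(n)` (modules `DZ`), outside a set of heights of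
measure `O(T e^(-c n))` the zeros of `ξ^(n)` are on the critical line, simple and regularly spaced.  Jensen's
formula on the scales `2^j n / log T` bounds the number of neighbours of the other zeros, so that the sum of
the squares of the numbers of neighbours, over all irregular zeros, is `O(e^(-c n) T log T)` (module
`PC.Pair`).  Pairs of zeros with a broken chain of regular zeros between them are therefore negligible.
-/

set_option autoImplicit false

namespace Pool.Agent.Results.MP_f58427_nt.DerivativePairs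

/-- The Riemann xi function `ξ(s) = s (s - 1) π^(-s/2) Γ(s/2) ζ(s) / 2`, an entire function; in terms of
Mathlib's entire function `completedRiemannZeta₀`, with
`π^(-s/2) Γ(s/2) ζ(s) = completedRiemannZeta₀ s - 1/s - 1/(1 - s)`. -/
noncomputable def xi (s : ℂ) : ℂ := s * (s - 1) / 2 * completedRiemannZeta₀ s + 1 / 2

/-- The zeros of `ξ^(n)` with `T < Im ρ ≤ 2T`. -/
def zeros (n : ℕ) (T : ℝ) : Set ℂ := {ρ : ℂ | iteratedDeriv n xi ρ = 0 ∧ T < ρ.im ∧ ρ.im ≤ 2 * T}

/-- The multiplicity of the zero `ρ` of `ξ^(n)`. -/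
noncomputable def mult (n : ℕ) (ρ : ℂ) : ℝ := (analyticOrderNatAt (iteratedDeriv n xi) ρ : ℝ)

/-- The number of zeros of `ξ^(n)` with `T < Im ρ ≤ 2T`, with multiplicity. -/
noncomputable def N (n : ℕ) (T : ℝ) : ℝ := ∑ᶠ ρ ∈ zeros n T, mult n ρ

/-- The pair sum: the sum of `f((γ' - γ) log T / 2π)` over all pairs of zeros `ρ, ρ'` of `ξ^(n)` with
`T < γ, γ' ≤ 2T`, with multiplicities (`γ`, `γ'` are the imaginary parts; pairs `ρ = ρ'` included). -/
noncomputable def pairSum (f : ℝ → ℝ) (n : ℕ) (T : ℝ) : ℝ :=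
  ∑ᶠ ρ ∈ zeros n T, ∑ᶠ ρ' ∈ zeros n T,
    mult n ρ * mult n ρ' * f ((ρ'.im - ρ.im) * Real.log T / (2 * Real.pi))

open Pool.Agent.H24R2.DZ Pool.Agent.H24R2.PC in
theorem zeros_finite (n : ℕ) (T : ℝ) : (zeros n T).Finite := by
  have hK : IsCompact ((Set.Icc (-(1 / 2) : ℝ) (1 / 2)) ×ℂ (Set.Icc T (2 * T))) :=
    isCompact_Icc.reProdIm isCompact_Icc
  have hf := FinAux.finZeros strip n _ hK
  refine (hf.image (fun z => z + 1 / 2)).subset ?_
  rintro ρ ⟨r1, r2, r3⟩
  have hz := (XiEAux.zero_iff n ρ).1 r1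
  have him : (ρ - 1 / 2).im = ρ.im := by rw [Complex.sub_im]; norm_num
  refine ⟨ρ - 1 / 2, ⟨?_, hz⟩, by ring⟩
  rw [Complex.mem_reProdIm]
  refine ⟨abs_le.1 (strip n _ hz), ?_, ?_⟩
  · rw [him]; exact r2.le
  · rw [him]; exact r3

open Pool.Agent.H24R2.DZ Pool.Agent.H24R2.PC in
theorem mult_eq (n : ℕ) (ρ : ℂ) : mult n ρ = mu n (ρ - 1 / 2) := by
  unfold mult mu
  exact_mod_cast XiEAux.order_eq n ρ

open Pool.Agent.H24R2.DZ Pool.Agent.H24R2.PC in
theorem pairs (hPC : SPC) :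
    ∀ f : ℝ → ℝ, Continuous f → HasCompactSupport f → ∀ δ : ℝ, 0 < δ →
    ∃ n0 : ℕ, ∃ T0 : ℝ, ∀ (n : ℕ) (T : ℝ), n0 ≤ n → T0 ≤ T → (n : ℝ) ≤ Real.log T / 400 →
      (zeros n T).Finite ∧
      |pairSum f n T - (∑' k : ℤ, f k) * N n T| ≤ δ * (T * Real.log T) := by
  classical
  intro f hf1 hf2 δ hδ
  obtain ⟨n0, T0, _, H⟩ := hPC f hf1 hf2 δ hδ
  refine ⟨n0, T0, fun n T hn hT hnL => ⟨zeros_finite n T, ?_⟩⟩
  have hfin := zeros_finite n T
  have him : ∀ ρ : ℂ, (ρ - 1 / 2).im = ρ.im := fun ρ => by rw [Complex.sub_im]; norm_num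
  have hinj : ∀ x ∈ hfin.toFinset, ∀ y ∈ hfin.toFinset, x - 1 / 2 = y - 1 / 2 → x = y :=
    fun x _ y _ h => sub_left_injective h
  have hZ : AllZ n T (hfin.toFinset.image (fun ρ => ρ - 1 / 2)) := by
    intro z
    rw [Finset.mem_image]
    constructor
    · rintro ⟨ρ, hρ, rfl⟩
      rw [Set.Finite.mem_toFinset] at hρ
      exact ⟨(XiEAux.zero_iff n ρ).1 hρ.1, by rw [him]; exact hρ.2.1, by rw [him]; exact hρ.2.2⟩
    · rintro ⟨h1, h2, h3⟩
      have e : z + 1 / 2 - 1 / 2 = z := by ring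
      refine ⟨z + 1 / 2, ?_, e⟩
      rw [Set.Finite.mem_toFinset]
      have h4 := him (z + 1 / 2)
      rw [e] at h4
      refine ⟨(XiEAux.zero_iff n _).2 (by rw [e]; exact h1), by rw [← h4]; exact h2, by
        rw [← h4]; exact h3⟩
  have key := H T n hT hn hnL _ hZ
  rw [Finset.sum_image hinj, Finset.sum_image hinj] at key
  have e1 : pairSum f n T = ∑ ρ ∈ hfin.toFinset, ∑ z ∈ hfin.toFinset.image (fun ρ => ρ - 1 / 2),
      mu n (ρ - 1 / 2) * mu n z * f ((z.im - (ρ - 1 / 2).im) * Real.log T / (2 * Real.pi)) := by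
    unfold pairSum
    rw [finsum_mem_eq_finite_toFinset_sum _ hfin]
    refine Finset.sum_congr rfl fun ρ _ => ?_
    rw [finsum_mem_eq_finite_toFinset_sum _ hfin, Finset.sum_image hinj]
    refine Finset.sum_congr rfl fun ρ' _ => ?_
    rw [him, him, mult_eq, mult_eq]
  have e2 : N n T = ∑ ρ ∈ hfin.toFinset, mu n (ρ - 1 / 2) := by
    unfold N
    rw [finsum_mem_eq_finite_toFinset_sum _ hfin]
    exact Finset.sum_congr rfl fun ρ _ => mult_eq n ρ
  rw [e1, e2]
  exact key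

open Pool.Agent.H24R2.DZ Pool.Agent.H24R2.PC in
theorem number (hL : SLow) (hU : SUpp) : ∀ δ : ℝ, 0 < δ → ∃ n0 : ℕ, ∃ T0 : ℝ, 2 ≤ T0 ∧
    ∀ (n : ℕ) (T : ℝ), n0 ≤ n → T0 ≤ T → (n : ℝ) ≤ Real.log T / 400 →
      |N n T - T * Real.log T / (2 * Real.pi)| ≤ δ * (T * Real.log T / (2 * Real.pi)) := by
  classical
  intro δ hδ
  obtain ⟨n1, T1, hT1, H1⟩ := hL δ hδ
  obtain ⟨n2, T2, hT2, H2⟩ := hU δ hδ
  refine ⟨max n1 n2, max T1 T2, hT1.trans (le_max_left _ _), fun n T hn hT hnL => ?_⟩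
  have hfin := zeros_finite n T
  have him : ∀ ρ : ℂ, (ρ - 1 / 2).im = ρ.im := fun ρ => by rw [Complex.sub_im]; norm_num
  have hinj : ∀ x ∈ hfin.toFinset, ∀ y ∈ hfin.toFinset, x - 1 / 2 = y - 1 / 2 → x = y :=
    fun x _ y _ h => sub_left_injective h
  have hZ : AllZ n T (hfin.toFinset.image (fun ρ => ρ - 1 / 2)) := by
    intro z
    rw [Finset.mem_image]
    constructor
    · rintro ⟨ρ, hρ, rfl⟩
      rw [Set.Finite.mem_toFinset] at hρ
      exact ⟨(XiEAux.zero_iff n ρ).1 hρ.1, by rw [him]; exact hρ.2.1, by rw [him]; exact hρ.2.2⟩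
    · rintro ⟨h1, h2, h3⟩
      have e : z + 1 / 2 - 1 / 2 = z := by ring
      refine ⟨z + 1 / 2, ?_, e⟩
      rw [Set.Finite.mem_toFinset]
      have h4 := him (z + 1 / 2)
      rw [e] at h4
      refine ⟨(XiEAux.zero_iff n _).2 (by rw [e]; exact h1), by rw [← h4]; exact h2, by
        rw [← h4]; exact h3⟩
  have k1 := H1 T n ((le_max_left _ _).trans hT) ((le_max_left _ _).trans hn) hnL _ hZ
  have k2 := H2 T n ((le_max_right _ _).trans hT) ((le_max_right _ _).trans hn) hnL _ hZ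
  rw [Finset.sum_image hinj] at k1 k2
  have e2 : N n T = ∑ ρ ∈ hfin.toFinset, mu n (ρ - 1 / 2) := by
    unfold N
    rw [finsum_mem_eq_finite_toFinset_sum _ hfin]
    exact Finset.sum_congr rfl fun ρ _ => mult_eq n ρ
  rw [e2, abs_le]
  constructor <;> linarith

theorem result : ∀ f : ℝ → ℝ, Continuous f → HasCompactSupport f → ∀ δ : ℝ, 0 < δ →
    ∃ n0 : ℕ, ∃ T0 : ℝ, ∀ (n : ℕ) (T : ℝ), n0 ≤ n → T0 ≤ T → (n : ℝ) ≤ Real.log T / 400 →
      (zeros n T).Finite ∧
      |N n T - T * Real.log T / (2 * Real.pi)| ≤ δ * (T * Real.log T / (2 * Real.pi)) ∧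
      |pairSum f n T - (∑' k : ℤ, f k) * (T * Real.log T / (2 * Real.pi))| ≤
        δ * (T * Real.log T / (2 * Real.pi)) := by
  intro f hf1 hf2 δ hδ
  set A : ℝ := ∑' k : ℤ, f k with hA
  have hpi := Real.pi_pos
  obtain ⟨n1, T1, H1⟩ := pairs Pool.Agent.H24R2.PC.pcT f hf1 hf2 (δ / (4 * Real.pi)) (by positivity)
  obtain ⟨n2, T2, hT2, H2⟩ := number Pool.Agent.H24R2.PC.lowT Pool.Agent.H24R2.PC.uppT
    (min δ (δ / (2 * (|A| + 1)))) (lt_min hδ (by positivity))
  refine ⟨max n1 n2, max T1 T2, fun n T hn hT hnL => ?_⟩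
  obtain ⟨a1, a2⟩ := H1 n T ((le_max_left _ _).trans hn) ((le_max_left _ _).trans hT) hnL
  have a3 := H2 n T ((le_max_right _ _).trans hn) ((le_max_right _ _).trans hT) hnL
  have hT2' : 2 ≤ T := hT2.trans ((le_max_right _ _).trans hT)
  set B : ℝ := T * Real.log T / (2 * Real.pi) with hB
  have hB0 : 0 ≤ B := by
    have := Real.log_nonneg (by linarith : (1 : ℝ) ≤ T)
    positivity
  refine ⟨a1, a3.trans (mul_le_mul_of_nonneg_right (min_le_left _ _) hB0), ?_⟩
  have e1 : δ / (4 * Real.pi) * (T * Real.log T) = δ / 2 * B := by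
    rw [hB]; field_simp; ring
  rw [e1] at a2
  have e2 : pairSum f n T - A * B = (pairSum f n T - A * N n T) + A * (N n T - B) := by ring
  rw [e2]
  refine (abs_add_le _ _).trans ?_
  rw [abs_mul]
  have e3 : |A| * |N n T - B| ≤ δ / 2 * B := by
    calc |A| * |N n T - B| ≤ |A| * (δ / (2 * (|A| + 1)) * B) := by
          apply mul_le_mul_of_nonneg_left _ (abs_nonneg A)
          exact a3.trans (mul_le_mul_of_nonneg_right (min_le_right _ _) hB0)
      _ = (|A| / (|A| + 1)) * (δ / 2 * B) := by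
          have : |A| + 1 ≠ 0 := by positivity
          field_simp
      _ ≤ 1 * (δ / 2 * B) := by
          apply mul_le_mul_of_nonneg_right _ (by positivity)
          rw [div_le_one (by positivity)]
          linarith
      _ = δ / 2 * B := one_mul _
  linarith

end Pool.Agent.Results.MP_f58427_nt.DerivativePairs
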