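import Pool.Agent.H344R2.Scale

/-!
# Isolated ordinates of zeta, unconditionally

A positive proportion (more than one half) of the nontrivial zeros of zeta are simple, on the
critical line, and have an ordinate whose distance to the ordinate of every other nontrivial zero,
on or off the line, is more than one sixth of the mean spacing.
-/

open Filter Topology MeasureTheory

namespace Pool.Agent.Results.MP_f58427_nt.IsolatedOrdinates

/-- the nontrivial zeros of zeta with ordinate in `(0, T]` -/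
def zeros (T : ℝ) : Set ℂ :=
  {s : ℂ | riemannZeta s = 0 ∧ 0 < s.re ∧ s.re < 1 ∧ 0 < s.im ∧ s.im ≤ T}

/-- the number of nontrivial zeros with ordinate in `(0, T]`, counted with multiplicity -/
noncomputable def N (T : ℝ) : ℕ := ∑ᶠ s ∈ zeros T, analyticOrderNatAt riemannZeta s

/-- `s` is on the critical line, is a simple zero, and the ordinate of every other nontrivial zero
is at distance more than `r` times `2π / log (Im s)` from `Im s` -/
def Isolated (r : ℝ) (s : ℂ) : Prop :=
  s.re = 1 / 2 ∧ analyticOrderNatAt riemannZeta s = 1 ∧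
    ∀ s' : ℂ, riemannZeta s' = 0 → 0 < s'.re → s'.re < 1 → s' ≠ s →
      r * (2 * Real.pi / Real.log s.im) < |s'.im - s.im|

/-- the number of simple critical zeros with ordinate in `(0, T]` which are isolated -/
noncomputable def NI (r T : ℝ) : ℕ := {s : ℂ | s ∈ zeros T ∧ Isolated r s}.ncard

/-- the Montgomery-Taylor constant -/
noncomputable def cMT : ℝ :=
  Real.sqrt 2 * Real.tan (1 / Real.sqrt 2) / (1 + Real.tan (1 / Real.sqrt 2) / Real.sqrt 2)

theorem zeros_eq (T : ℝ) : zeros T = H370.zset riemannZeta 0 T := by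
  ext s
  simp only [zeros, H370.zset, Set.mem_ofPred_eq]
  tauto

/-- the sets of zeros that are counted are finite -/
theorem zeros_finite (T : ℝ) : (zeros T).Finite := by
  rw [zeros_eq]
  exact H370.zeta_zeros_finite T

theorem N_eq (T : ℝ) : N T = H370.NN riemannZeta 0 T := by
  unfold N H370.NN H370.mult
  rw [zeros_eq]

theorem isolated_iff (r : ℝ) (s : ℂ) : Isolated r s ↔ H344.Qord riemannZeta r s := by
  unfold Isolated H344.Qord H370.mult
  have e1 : r * (2 * Real.pi / Real.log s.im) = 2 * Real.pi * r / Real.log s.im := by ring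
  simp only [e1]

theorem NI_eq (r T : ℝ) : NI r T = H344.PQ riemannZeta (H344.Qord riemannZeta r) 0 T := by
  unfold NI H344.PQ
  simp only [zeros_eq, isolated_iff]

theorem result :
    (∃ κ : ℝ, 0 < κ ∧ ∃ T₀ : ℝ, ∀ T : ℝ, T₀ ≤ T →
      ((5 - 3 * cMT⁻¹) / 2 + κ) * (N T : ℝ) ≤ (NI (1 / 6) T : ℝ) ∧
      (3 - 2 * cMT⁻¹ + κ) * (N T : ℝ) ≤ (NI (1 / 3) T : ℝ)) ∧
    1 / 2 < (5 - 3 * cMT⁻¹) / 2 := by
  obtain ⟨κ, hκ0, -, H⟩ := H370.yhyp_triples
  have h2 : cMT⁻¹ = H370.cMTinv := H370.cMTinv_eq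
  have hk0 : 0 < min (1 / 100) (κ / 2) := by positivity
  have hk1 : min (1 / 100) (κ / 2) ≤ 1 / 100 := min_le_left _ _
  have hk2 : 2 * min (1 / 100) (κ / 2) ≤ κ := by
    have := min_le_right (1 / 100) (κ / 2)
    linarith
  refine ⟨⟨min (1 / 100) (κ / 2) / 2, by positivity, ?_⟩, ?_⟩
  · obtain ⟨X0, hX0⟩ := H344.ord_zero H370.good_zeta H370.zeta_zeros_finite hk0 hk1 hk2 H
    refine ⟨X0, fun T hT => ?_⟩
    rw [N_eq, NI_eq, NI_eq, h2]
    exact ⟨(hX0 T hT).2, (hX0 T hT).1⟩
  · rw [h2]
    exact H344.half_lt_ord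

end Pool.Agent.Results.MP_f58427_nt.IsolatedOrdinates
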