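import Pool.Agent.H344R2.Scale

/-!
# Isolated simple critical zeros of zeta, unconditionally

With `κ` the transform of the Montgomery-Taylor window, a trace inequality with a test matrix that
is supported on the simple critical zeros and on the pairs of zeros which are close to them in a
box gives the bound `N ≤ (isolated) + (c_MT⁻¹ - 1) / κ(r)² N`, and triples of close zeros give
a further gain.
-/

open Filter Topology MeasureTheory

namespace Pool.Agent.Results.MP_f58427_nt.IsolatedZeros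

/-- the nontrivial zeros of zeta with ordinate in `(0, T]` -/
def zeros (T : ℝ) : Set ℂ :=
  {s : ℂ | riemannZeta s = 0 ∧ 0 < s.re ∧ s.re < 1 ∧ 0 < s.im ∧ s.im ≤ T}

/-- the number of nontrivial zeros with ordinate in `(0, T]`, counted with multiplicity -/
noncomputable def N (T : ℝ) : ℕ := ∑ᶠ s ∈ zeros T, analyticOrderNatAt riemannZeta s

/-- `s` is on the critical line, is a simple zero, and no other nontrivial zero lies in the
closed box with centre `s`, half height `2πr / log (Im s)` and half width `(2/5) 2π / log (Im s)` -/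
def Isolated (r : ℝ) (s : ℂ) : Prop :=
  s.re = 1 / 2 ∧ analyticOrderNatAt riemannZeta s = 1 ∧
    ∀ s' : ℂ, riemannZeta s' = 0 → 0 < s'.re → s'.re < 1 → s' ≠ s →
      ¬ (|s'.im - s.im| ≤ r * (2 * Real.pi / Real.log s.im) ∧
        |s'.re - 1 / 2| ≤ 2 / 5 * (2 * Real.pi / Real.log s.im))

/-- the number of isolated simple critical zeros with ordinate in `(0, T]` -/
noncomputable def NI (r T : ℝ) : ℕ := {s : ℂ | s ∈ zeros T ∧ Isolated r s}.ncard

/-- the Montgomery-Taylor kernel at `r` times the mean spacing -/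
noncomputable def K (r : ℝ) : ℝ :=
  (∫ t in (-1 / 2 : ℝ)..(1 / 2), Real.cos (Real.sqrt 2 * t) * Real.cos (2 * Real.pi * r * t)) /
    (Real.sqrt 2 * Real.sin (1 / Real.sqrt 2))

/-- the Montgomery-Taylor constant -/
noncomputable def cMT : ℝ :=
  Real.sqrt 2 * Real.tan (1 / Real.sqrt 2) / (1 + Real.tan (1 / Real.sqrt 2) / Real.sqrt 2)

theorem zeros_eq (T : ℝ) : zeros T = H370.zset riemannZeta 0 T := by
  ext s
  simp only [zeros, H370.zset, Set.mem_ofPred_eq]
  tauto

/-- the sets of zeros that are counted are finite -/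
theorem zeros_finite (T : ℝ) : (zeros T).Finite := by
  rw [zeros_eq]
  exact H370.zeta_zeros_finite T

theorem N_eq (T : ℝ) : N T = H370.NN riemannZeta 0 T := by
  unfold N H370.NN H370.mult
  rw [zeros_eq]

theorem isolated_iff (r : ℝ) (s : ℂ) : Isolated r s ↔ H344.Qbox riemannZeta r s := by
  unfold Isolated H344.Qbox H370.mult
  have e1 : r * (2 * Real.pi / Real.log s.im) = 2 * Real.pi * r / Real.log s.im := by ring
  have e2 : 2 / 5 * (2 * Real.pi / Real.log s.im) = 4 * Real.pi / 5 / Real.log s.im := by ring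
  simp only [e1, e2, not_and, not_le]

theorem NI_eq (r T : ℝ) : NI r T = H344.PQ riemannZeta (H344.Qbox riemannZeta r) 0 T := by
  unfold NI H344.PQ
  simp only [zeros_eq, isolated_iff]

theorem K_eq (r : ℝ) : K r = H344.KK r := by
  have h := H370.GramAux.kap_re_mul (2 * Real.pi * r)
  have hd := H370.GramAux.den_pos.ne'
  unfold K H344.KK
  rw [← h, mul_div_cancel_left₀ _ hd]

theorem result :
    (∃ κ : ℝ, 0 < κ ∧ ∀ r : ℝ, 0 ≤ r → r ≤ 1 / 3 → ∃ T₀ : ℝ, ∀ T : ℝ, T₀ ≤ T →
      (1 - (cMT⁻¹ - 1 - κ) / K r ^ 2) * (N T : ℝ) ≤ (NI r T : ℝ)) ∧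
    1 / 2 < 1 - (cMT⁻¹ - 1) / K (1 / 3) ^ 2 := by
  obtain ⟨κ, hκ0, -, H⟩ := H370.yhyp_triples
  have h2 : cMT⁻¹ = H370.cMTinv := H370.cMTinv_eq
  have hk0 : 0 < min (1 / 100) (κ / 2) := by positivity
  have hk1 : min (1 / 100) (κ / 2) ≤ 1 / 100 := min_le_left _ _
  have hk2 : 2 * min (1 / 100) (κ / 2) ≤ κ := by
    have := min_le_right (1 / 100) (κ / 2)
    linarith
  refine ⟨⟨min (1 / 100) (κ / 2) / 2, by positivity, fun r hr0 hr => ?_⟩, ?_⟩
  · obtain ⟨X0, hX0⟩ := H344.box_zero H370.good_zeta H370.zeta_zeros_finite hk0 hk1 hk2 H hr0 hr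
    refine ⟨X0, fun T hT => ?_⟩
    rw [N_eq, NI_eq, h2, K_eq]
    exact hX0 T hT
  · rw [h2, K_eq]
    exact H344.half_lt_box

end Pool.Agent.Results.MP_f58427_nt.IsolatedZeros
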